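import Pool.Agent.Run7.h78.VB.Verb

/-!
# Verbal quotients of free groups

Owner helper78.
-/

set_option autoImplicit false

namespace Pool.Agent.Run7.h78.VB

open Pool.Agent.Y110.FJ Pool.Agent.Y462.SS

variable (W : Set (FreeGroup ℕ))

/-- the permutations of `(F ⧸ R) × X` given by left multiplication -/
def lperm (Q X : Type) [Group Q] : Q →* Equiv.Perm (Q × X) where
  toFun q :=
    { toFun := fun e => (q * e.1, e.2)
      invFun := fun e => (q⁻¹ * e.1, e.2)
      left_inv := fun e => by simp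
      right_inv := fun e => by simp }
  map_one' := by ext e <;> simp
  map_mul' a b := by
    apply Equiv.ext
    intro e
    exact Prod.ext (mul_assoc a b e.1) rfl

/-- **Verbal quotients of free groups.** -/
theorem free_main {C : ∀ (G : Type) [Group G], Prop} (hC : ClosedE C)
    (hW : ∀ n : ℕ, C (RF W (Fin n))) (X : Type) (R : Subgroup (FreeGroup X)) [R.Normal]
    (hQ : C (FreeGroup X ⧸ R)) : C (FreeGroup X ⧸ (verbal W R).map R.subtype) := by
  classical
  -- the section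
  obtain ⟨t, ht, ht1⟩ : ∃ t : FreeGroup X ⧸ R → FreeGroup X, (∀ q, QuotientGroup.mk' R (t q) = q) ∧
      t 1 = 1 := by
    choose t ht using QuotientGroup.mk'_surjective R
    refine ⟨fun q => if q = 1 then 1 else t q, fun q => ?_, if_pos rfl⟩
    by_cases h : q = 1
    · simp only [h, if_true, map_one]
    · simp only [h, if_false]
      exact ht q
  have hmem : ∀ (q : FreeGroup X ⧸ R) (w : FreeGroup X),
      t q * w * (t (q * QuotientGroup.mk' R w))⁻¹ ∈ R := by
    intro q w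
    rw [← QuotientGroup.eq_one_iff, ← QuotientGroup.mk'_apply, map_mul, map_mul, map_inv, ht, ht]
    group
  obtain ⟨ρ, hρ⟩ : ∃ ρ : FreeGroup ((FreeGroup X ⧸ R) × X) →* R, ∀ e, ρ (FreeGroup.of e) =
      ⟨t e.1 * FreeGroup.of e.2 * (t (e.1 * QuotientGroup.mk' R (FreeGroup.of e.2)))⁻¹, hmem _ _⟩ :=
    ⟨FreeGroup.lift _, fun e => FreeGroup.lift_apply_of⟩
  -- the embedding in the free group
  obtain ⟨φ, hφ⟩ : ∃ φ : (FreeGroup X ⧸ R) →* MulAut (FreeGroup ((FreeGroup X ⧸ R) × X)),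
      ∀ q w, φ q w = FreeGroup.map (lperm _ X q) w := by
    refine ⟨MonoidHom.mk' (fun q => FreeGroup.freeGroupCongr (lperm _ X q)) ?_, fun q w => rfl⟩
    intro a b
    apply MulEquiv.ext
    intro w
    show FreeGroup.map _ w = FreeGroup.map _ (FreeGroup.map _ w)
    rw [FreeGroup.map.comp, map_mul]
    rfl
  obtain ⟨Θ₀, hΘ₀⟩ : ∃ Θ₀ : FreeGroup X →* FreeGroup ((FreeGroup X ⧸ R) × X) ⋊[φ] (FreeGroup X ⧸ R),
      ∀ x, Θ₀ (FreeGroup.of x) = ⟨FreeGroup.of (1, x), QuotientGroup.mk' R (FreeGroup.of x)⟩ :=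
    ⟨FreeGroup.lift _, fun e => FreeGroup.lift_apply_of⟩
  have hr₀ : ∀ w, (Θ₀ w).right = QuotientGroup.mk' R w := by
    intro w
    have h1 : (SemidirectProduct.rightHom.comp Θ₀) = QuotientGroup.mk' R := by
      apply FreeGroup.ext_hom
      intro x
      rw [MonoidHom.comp_apply, hΘ₀]
      rfl
    exact DFunLike.congr_fun h1 w
  have key : ∀ (w : FreeGroup X) (q : FreeGroup X ⧸ R), (ρ (φ q (Θ₀ w).left) : FreeGroup X) =
      t q * w * (t (q * QuotientGroup.mk' R w))⁻¹ := by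
    intro w
    induction w using FreeGroup.induction_on with
    | C1 =>
      intro q
      rw [map_one]
      show (ρ (φ q 1) : FreeGroup X) = _
      rw [map_one, map_one, map_one]
      show (1 : FreeGroup X) = _
      rw [mul_one, mul_one, mul_inv_cancel]
    | of x =>
      intro q
      rw [hΘ₀]
      show (ρ (φ q (FreeGroup.of (1, x))) : FreeGroup X) = _
      rw [hφ, FreeGroup.map.of, hρ]
      show t (q * 1) * FreeGroup.of x * (t (q * 1 * QuotientGroup.mk' R (FreeGroup.of x)))⁻¹ = _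
      rw [mul_one]
    | inv_of x ih =>
      intro q
      have h1 : (Θ₀ (FreeGroup.of x)⁻¹).left =
          φ (QuotientGroup.mk' R (FreeGroup.of x))⁻¹ (Θ₀ (FreeGroup.of x)).left⁻¹ := by
        rw [map_inv, SemidirectProduct.inv_left, hr₀]
      have h2 := ih (q * (QuotientGroup.mk' R (FreeGroup.of x))⁻¹)
      rw [h1, map_inv (φ (QuotientGroup.mk' R (FreeGroup.of x))⁻¹), map_inv (φ q), map_inv ρ,
        Subgroup.coe_inv]
      have h3 : φ q (φ (QuotientGroup.mk' R (FreeGroup.of x))⁻¹ (Θ₀ (FreeGroup.of x)).left) =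
          φ (q * (QuotientGroup.mk' R (FreeGroup.of x))⁻¹) (Θ₀ (FreeGroup.of x)).left := by
        rw [map_mul]
        rfl
      rw [h3, h2, inv_mul_cancel_right, map_inv]
      group
    | mul a b iha ihb =>
      intro q
      have h1 : (Θ₀ (a * b)).left = (Θ₀ a).left * φ (QuotientGroup.mk' R a) (Θ₀ b).left := by
        rw [map_mul, SemidirectProduct.mul_left, hr₀]
      have h3 : φ q (φ (QuotientGroup.mk' R a) (Θ₀ b).left) =
          φ (q * QuotientGroup.mk' R a) (Θ₀ b).left := by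
        rw [map_mul]
        rfl
      rw [h1, map_mul (φ q), map_mul ρ, Subgroup.coe_mul, h3, iha, ihb, map_mul]
      group
  -- the embedding of the quotient
  have hS := perm_mem W hC hW ((FreeGroup X ⧸ R) × X) (FreeGroup X ⧸ R) (lperm _ X) hQ
  obtain ⟨κ, hκ⟩ : ∃ κ : FreeGroup ((FreeGroup X ⧸ R) × X) ⋊[φ] (FreeGroup X ⧸ R) →*
      RF W ((FreeGroup X ⧸ R) × X) ⋊[(rfPerm W _).comp (lperm _ X)] (FreeGroup X ⧸ R),
      ∀ z, κ z = ⟨QuotientGroup.mk' _ z.left, z.right⟩ := by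
    refine ⟨SemidirectProduct.map (QuotientGroup.mk' _) (MonoidHom.id _) ?_, fun z => rfl⟩
    intro q
    apply FreeGroup.ext_hom
    intro w
    show QuotientGroup.mk' _ (φ q (FreeGroup.of w)) = rfMap W _ (QuotientGroup.mk' _ (FreeGroup.of w))
    rw [hφ, rfMap_mk]
    rfl
  obtain ⟨Θ, hΘ⟩ : ∃ Θ : FreeGroup X →* RF W ((FreeGroup X ⧸ R) × X) ⋊[(rfPerm W _).comp
      (lperm _ X)] (FreeGroup X ⧸ R), Θ = κ.comp Θ₀ := ⟨_, rfl⟩
  have hΘr : ∀ g, (Θ g).right = QuotientGroup.mk' R g := fun g => by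
    rw [hΘ, MonoidHom.comp_apply, hκ]
    exact hr₀ g
  have h1 : ∀ g ∈ (verbal W R).map R.subtype, Θ g = 1 := by
    rintro _ ⟨r, hr, rfl⟩
    have hr1 : ∀ r : R, (Θ r).right = 1 := fun r => by
      rw [hΘr]
      exact (QuotientGroup.eq_one_iff _).2 r.2
    obtain ⟨β, hβ⟩ : ∃ β : R →* RF W ((FreeGroup X ⧸ R) × X), ∀ r, β r = (Θ r).left := by
      refine ⟨MonoidHom.mk' (fun r => (Θ r).left) fun a b => ?_, fun _ => rfl⟩
      show (Θ ((a : FreeGroup X) * b)).left = _
      rw [map_mul, SemidirectProduct.mul_left, hr1, map_one]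
      rfl
    have h2 := verbal_map W β hr
    rw [verbal_rf, Subgroup.mem_bot, hβ] at h2
    exact SemidirectProduct.ext h2 (hr1 r)
  refine hC.base.of_injective _ _ (QuotientGroup.lift _ Θ h1) ?_ hS
  rw [injective_iff_map_eq_one]
  intro g hg
  obtain ⟨g, rfl⟩ := QuotientGroup.mk'_surjective _ g
  have h2 : Θ g = 1 := hg
  rw [QuotientGroup.mk'_apply, QuotientGroup.eq_one_iff]
  have hgR : g ∈ R := by
    have h3 := hΘr g
    rw [h2] at h3
    exact (QuotientGroup.eq_one_iff g).1 h3.symm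
  have h4 : (Θ₀ g).left ∈ verbal W (FreeGroup ((FreeGroup X ⧸ R) × X)) := by
    have h5 : (Θ g).left = QuotientGroup.mk' _ (Θ₀ g).left := by
      rw [hΘ, MonoidHom.comp_apply, hκ]
    rw [h2] at h5
    exact (QuotientGroup.eq_one_iff _).1 h5.symm
  have h7 := verbal_map W ρ h4
  have h8 : ρ (Θ₀ g).left = ⟨g, hgR⟩ := by
    apply Subtype.ext
    have h9 := key g 1
    rw [map_one, one_mul, (QuotientGroup.eq_one_iff (N := R) g).2 hgR |> fun h => (show
      QuotientGroup.mk' R g = 1 from h), ht1, inv_one, mul_one, one_mul] at h9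
    exact h9
  rw [h8] at h7
  exact ⟨⟨g, hgR⟩, h7, rfl⟩

end Pool.Agent.Run7.h78.VB
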