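import Pool.Agent.Q30.FJ.Cons
import Pool.Agent.N24.TR.Tree

/-!
# Verbal quotients of groups acting on trees

Owner helper78. A group `G` acts on a tree, `R` is a normal subgroup that acts freely, and `W` is a
set of words. If `G ⧸ R` and the relatively free groups of finite rank of the variety given by `W` are
in `C`, then `G ⧸ W(R)` is in `C`.
-/

set_option autoImplicit false

namespace Pool.Agent.Run7.h78.VB

open Pool.Agent.Y110.FJ Pool.Agent.Y462.SS SimpleGraph Pool.Agent.N24.TR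

/-- the verbal subgroup of `G` given by the set of words `W` -/
def verbal (W : Set (FreeGroup ℕ)) (G : Type) [Group G] : Subgroup G :=
  Subgroup.closure {g | ∃ w ∈ W, ∃ f : FreeGroup ℕ →* G, g = f w}

variable (W : Set (FreeGroup ℕ))

theorem verbal_map {G H : Type} [Group G] [Group H] (φ : G →* H) {g : G} (hg : g ∈ verbal W G) :
    φ g ∈ verbal W H := by
  have h : verbal W G ≤ (verbal W H).comap φ := by
    refine (Subgroup.closure_le _).2 ?_
    rintro _ ⟨w, hw, f, rfl⟩
    exact Subgroup.subset_closure ⟨w, hw, φ.comp f, rfl⟩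
  exact h hg

instance verbal_normal (G : Type) [Group G] : (verbal W G).Normal :=
  ⟨fun _ hn g => verbal_map W (MulAut.conj g).toMonoidHom hn⟩

instance verbal_map_normal {G : Type} [Group G] (R : Subgroup G) [hR : R.Normal] :
    ((verbal W R).map R.subtype).Normal := by
  refine ⟨?_⟩
  rintro _ ⟨r, hr, rfl⟩ g
  refine ⟨(MulAut.conjNormal g : MulAut R) r, verbal_map W (MulAut.conjNormal g : MulAut R).toMonoidHom hr,
    ?_⟩
  exact MulAut.conjNormal_apply g r

/-- the relatively free group on `X` -/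
abbrev RF (X : Type) : Type := FreeGroup X ⧸ verbal W (FreeGroup X)

/-- functoriality -/
def rfMap {X Y : Type} (f : X → Y) : RF W X →* RF W Y :=
  QuotientGroup.map _ _ (FreeGroup.map f) fun _ hx => verbal_map W _ hx

theorem rfMap_mk {X Y : Type} (f : X → Y) (x : FreeGroup X) :
    rfMap W f (QuotientGroup.mk' _ x) = QuotientGroup.mk' _ (FreeGroup.map f x) := rfl

theorem rfMap_comp {X Y Z : Type} (g : Y → Z) (f : X → Y) (x : RF W X) :
    rfMap W g (rfMap W f x) = rfMap W (g ∘ f) x := by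
  obtain ⟨x, rfl⟩ := QuotientGroup.mk'_surjective _ x
  rw [rfMap_mk, rfMap_mk, rfMap_mk, FreeGroup.map.comp]

theorem rfMap_id {X : Type} (x : RF W X) : rfMap W id x = x := by
  obtain ⟨x, rfl⟩ := QuotientGroup.mk'_surjective _ x
  rw [rfMap_mk, FreeGroup.map.id]

/-- the laws hold -/
theorem verbal_rf (X : Type) : verbal W (RF W X) = ⊥ := by
  rw [eq_bot_iff]
  refine (Subgroup.closure_le _).2 ?_
  rintro _ ⟨w, hw, f, rfl⟩
  rw [SetLike.mem_coe, Subgroup.mem_bot]
  choose s hs using QuotientGroup.mk'_surjective (verbal W (FreeGroup X))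
  have h1 : (QuotientGroup.mk' (verbal W (FreeGroup X))).comp
      (FreeGroup.lift fun n => s (f (FreeGroup.of n))) = f := by
    apply FreeGroup.ext_hom
    intro n
    rw [MonoidHom.comp_apply, FreeGroup.lift_apply_of]
    exact hs _
  rw [← h1, MonoidHom.comp_apply, QuotientGroup.mk'_apply, QuotientGroup.eq_one_iff]
  exact Subgroup.subset_closure ⟨w, hw, _, rfl⟩

/-- relatively free groups of infinite rank -/
theorem rf_mem {C : ∀ (G : Type) [Group G], Prop} (hC : Closed C)
    (hW : ∀ n : ℕ, C (RF W (Fin n))) (X : Type) : C (RF W X) := by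
  classical
  -- the inclusion and the retraction
  obtain ⟨ι, hι⟩ : ∃ ι : ∀ S : Finset X, RF W S →* RF W X, ι = fun (S : Finset X) => rfMap W (Subtype.val : S → X) :=
    ⟨_, rfl⟩
  have hret : ∀ S : Finset X, ∃ ρ : RF W X →* RF W S, ∀ x, ρ (ι S x) = x := by
    intro S
    obtain ⟨r, hr⟩ : ∃ r : FreeGroup X →* FreeGroup S, r = FreeGroup.lift
      (fun x : X => if h : x ∈ S then FreeGroup.of (⟨x, h⟩ : S) else 1) := ⟨_, rfl⟩
    refine ⟨QuotientGroup.map _ _ r fun _ hx => verbal_map W _ hx, fun x => ?_⟩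
    obtain ⟨x, rfl⟩ := QuotientGroup.mk'_surjective _ x
    rw [hι]
    show QuotientGroup.mk' (verbal W (FreeGroup S)) (r (FreeGroup.map _ x)) = _
    congr 1
    have h1 : r.comp (FreeGroup.map (Subtype.val : S → X)) = MonoidHom.id _ := by
      apply FreeGroup.ext_hom
      intro y
      rw [MonoidHom.comp_apply, FreeGroup.map.of, hr, FreeGroup.lift_apply_of, dif_pos y.2]
      rfl
    exact DFunLike.congr_fun h1 x
  refine Pool.Agent.Y430.SS.of_directed hC (RF W X) (Finset X) (fun i j => ?_)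
    (fun S => (ι S).range) ?_ ?_ (fun S => ?_)
  · exact ⟨i ∪ j, Finset.subset_union_left, Finset.subset_union_right⟩
  · rintro S S' h _ ⟨x, rfl⟩
    refine ⟨rfMap W (fun x : S => (⟨x, h x.2⟩ : S')) x, ?_⟩
    rw [hι]
    show rfMap W _ (rfMap W _ x) = _
    rw [rfMap_comp]
    rfl
  · intro g
    obtain ⟨x, rfl⟩ := QuotientGroup.mk'_surjective _ g
    induction x using FreeGroup.induction_on with
    | C1 => exact ⟨∅, Subgroup.one_mem _⟩
    | of y =>
      refine ⟨{y}, QuotientGroup.mk' _ (FreeGroup.of ⟨y, Finset.mem_singleton_self y⟩), ?_⟩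
      rw [hι]
      show rfMap W _ _ = _
      rw [rfMap_mk, FreeGroup.map.of]
    | inv_of y ih =>
      obtain ⟨S, hS⟩ := ih
      refine ⟨S, ?_⟩
      rw [map_inv]
      exact inv_mem hS
    | mul x y hx hy =>
      obtain ⟨S, hS⟩ := hx
      obtain ⟨S', hS'⟩ := hy
      have hmono : ∀ A B : Finset X, A ⊆ B → (ι A).range ≤ (ι B).range := by
        rintro A B h _ ⟨x, rfl⟩
        refine ⟨rfMap W (fun x : A => (⟨x, h x.2⟩ : B)) x, ?_⟩
        rw [hι]
        show rfMap W _ (rfMap W _ x) = _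
        rw [rfMap_comp]
        rfl
      refine ⟨S ∪ S', ?_⟩
      rw [map_mul]
      exact mul_mem (hmono _ _ Finset.subset_union_left hS) (hmono _ _ Finset.subset_union_right hS')
  · obtain ⟨ρ, hρ⟩ := hret S
    have h1 : C (RF W S) := by
      refine hC.of_injective _ _ (rfMap W (Fintype.equivFin S)) ?_ (hW (Fintype.card S))
      intro x y hxy
      have h2 := congrArg (rfMap W (Fintype.equivFin S).symm) hxy
      rw [rfMap_comp, rfMap_comp, Equiv.symm_comp_self, rfMap_id, rfMap_id] at h2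
      exact h2
    refine hC.of_injective _ _ (ρ.comp (ι S).range.subtype) ?_ h1
    rintro ⟨_, x, rfl⟩ ⟨_, y, rfl⟩ hxy
    have h2 : ρ (ι S x) = ρ (ι S y) := hxy
    rw [hρ, hρ] at h2
    exact Subtype.ext (congrArg (ι S) h2)

/-- permutations act -/
def rfPerm (X : Type) : Equiv.Perm X →* MulAut (RF W X) where
  toFun π :=
    { toFun := rfMap W π
      invFun := rfMap W π.symm
      left_inv := fun x => by rw [rfMap_comp, Equiv.symm_comp_self, rfMap_id]
      right_inv := fun x => by rw [rfMap_comp, Equiv.self_comp_symm, rfMap_id]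
      map_mul' := map_mul _ }
  map_one' := by
    ext x
    exact rfMap_id W x
  map_mul' a b := by
    ext x
    exact (rfMap_comp W a b x).symm

theorem map_fix {X : Type} (w : FreeGroup X) : ∃ S : Set X, S.Finite ∧ ∀ π : Equiv.Perm X,
    (∀ s ∈ S, π s = s) → FreeGroup.map π w = w := by
  induction w using FreeGroup.induction_on with
  | C1 => exact ⟨∅, Set.finite_empty, fun π _ => map_one _⟩
  | of y => exact ⟨{y}, Set.finite_singleton y, fun π h => by rw [FreeGroup.map.of, h y rfl]⟩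
  | inv_of y ih =>
    obtain ⟨S, hS, h⟩ := ih
    exact ⟨S, hS, fun π hπ => by rw [map_inv, h π hπ]⟩
  | mul x y hx hy =>
    obtain ⟨S, hS, h⟩ := hx
    obtain ⟨S', hS', h'⟩ := hy
    exact ⟨S ∪ S', hS.union hS', fun π hπ => by
      rw [map_mul, h π fun s hs => hπ s (Or.inl hs), h' π fun s hs => hπ s (Or.inr hs)]⟩

/-- the semidirect product of a relatively free group and a group of permutations of the basis -/
theorem perm_mem {C : ∀ (G : Type) [Group G], Prop} (hC : ClosedE C)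
    (hW : ∀ n : ℕ, C (RF W (Fin n))) (X Q : Type) [Group Q] (ρ : Q →* Equiv.Perm X) (hQ : C Q) :
    C (RF W X ⋊[(rfPerm W X).comp ρ] Q) := by
  refine _root_.Q30.FJ.nom C hC X (RF W X) Q (rfPerm W X) ρ ?_ (rf_mem W hC.base hW X) hQ
  intro n
  obtain ⟨w, rfl⟩ := QuotientGroup.mk'_surjective _ n
  obtain ⟨S, hS, h⟩ := map_fix w
  refine ⟨S, hS, fun π hπ => ?_⟩
  have h1 : rfMap W π (QuotientGroup.mk' _ w) = QuotientGroup.mk' _ w := by
    rw [rfMap_mk, h π hπ]
  exact h1

section tree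

variable {G V : Type} [Group G] [MulAction G V] {T : SimpleGraph V}

theorem wp_hom {M M' : Type} [Group M] [Group M'] (h : M →* M') (e : V → V → M)
    (e' : V → V → M') (he : ∀ u v, T.Adj u v → h (e u v) = e' u v) {u v : V} (p : T.Walk u v) :
    h (wp e p) = wp e' p := by
  induction p with
  | nil => exact map_one h
  | cons hadj p ih => rw [wp_cons, wp_cons, map_mul, ih, he _ _ hadj]

theorem wp_cob {M : Type} [Group M] (s : V → M) {u v : V} (p : T.Walk u v) :
    wp (fun u v => (s u)⁻¹ * s v) p = (s u)⁻¹ * s v := by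
  induction p with
  | nil => exact (inv_mul_cancel _).symm
  | cons hadj p ih =>
    rw [wp_cons, ih]
    group

/-- an equivariant map from the vertices to a group that acts freely on them -/
theorem exists_sec (R : Subgroup G) (hfree : ∀ r ∈ R, ∀ v : V, r • v = v → r = 1) :
    ∃ s : V → R, ∀ (r : R) (v : V), s ((r : G) • v) = r * s v := by
  have h1 : ∀ v : V, ∃ r : R, (r : G) • (Quotient.out (Quotient.mk (MulAction.orbitRel R V) v)) = v := by
    intro v
    have h2 : (MulAction.orbitRel R V).r v (Quotient.out (Quotient.mk (MulAction.orbitRel R V) v)) :=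
      (MulAction.orbitRel R V).symm' (@Quotient.mk_out V (MulAction.orbitRel R V) v)
    obtain ⟨r, hr⟩ := h2
    exact ⟨r, hr⟩
  choose s hs using h1
  refine ⟨s, fun r v => ?_⟩
  have h3 : (Quotient.mk (MulAction.orbitRel R V) ((r : G) • v)) =
      Quotient.mk (MulAction.orbitRel R V) v := Quotient.sound ⟨r, rfl⟩
  have h4 := hs ((r : G) • v)
  rw [h3] at h4
  have h5 := hs v
  generalize Quotient.out (Quotient.mk (MulAction.orbitRel R V) v) = x at h4 h5
  have h6 : (((r * s v)⁻¹ * s ((r : G) • v) : R) : G) • x = x := by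
    rw [Subgroup.coe_mul, Subgroup.coe_inv, Subgroup.coe_mul, mul_smul, h4, inv_smul_eq_iff,
      mul_smul, h5]
  have h7 := hfree _ ((r * s v)⁻¹ * s ((r : G) • v)).2 x h6
  have h8 : (r * s v)⁻¹ * s ((r : G) • v) = 1 := Subtype.ext h7
  exact (inv_mul_eq_one.1 h8).symm

/-- the retraction of the free group on the set of the oriented edges modulo `R` -/
theorem exists_ret (R : Subgroup G) (hfree : ∀ r ∈ R, ∀ v : V, r • v = v → r = 1)
    (hinv : ∀ r ∈ R, ∀ u v : V, T.Adj u v → r • u = v → r • v ≠ u) :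
    ∃ (s : V → R) (ρ : FreeGroup (XX R V) →* R), (∀ (r : R) (v : V), s ((r : G) • v) = r * s v) ∧
      ∀ u v, T.Adj u v → ρ (sy (kk R) u v) = (s u)⁻¹ * s v := by
  classical
  obtain ⟨s, hs⟩ := exists_sec R hfree
  obtain ⟨d, hd⟩ : ∃ d : XX R V → R, ∀ u v, d (kk R u v) = (s u)⁻¹ * s v := by
    refine ⟨Quotient.lift (fun x : V × V => (s x.1)⁻¹ * s x.2) ?_, fun u v => rfl⟩
    rintro x _ ⟨r, hr, rfl⟩
    show (s x.1)⁻¹ * s x.2 = (s (r • x.1))⁻¹ * s (r • x.2)
    rw [hs ⟨r, hr⟩ x.1, hs ⟨r, hr⟩ x.2]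
    group
  obtain ⟨fl, hfl⟩ : ∃ fl : XX R V → XX R V, ∀ u v, fl (kk R u v) = kk R v u := by
    refine ⟨Quotient.map (fun x : V × V => (x.2, x.1)) ?_, fun u v => rfl⟩
    rintro x _ ⟨r, hr, rfl⟩
    exact ⟨r, hr, rfl⟩
  let _ : LinearOrder (XX R V) := linearOrderOfSTO WellOrderingRel
  refine ⟨s, FreeGroup.lift fun x => if x < fl x then d x else 1, hs, fun u v h => ?_⟩
  have hne : kk R u v ≠ kk R v u := by
    intro h1
    obtain ⟨n, hn, h2, h3⟩ := kk_eq R h1
    exact hinv n hn u v h h2 h3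
  unfold sy
  rw [map_mul, map_inv, FreeGroup.lift_apply_of, FreeGroup.lift_apply_of, hfl, hfl]
  rcases lt_or_gt_of_ne hne with h1 | h1
  · rw [if_pos h1, if_neg (not_lt_of_gt h1), hd, inv_one, mul_one]
  · rw [if_neg (not_lt_of_gt h1), if_pos h1, hd]
    group

/-- **Verbal quotients.** -/
theorem main {C : ∀ (G : Type) [Group G], Prop} (hC : ClosedE C) (hT : T.IsTree)
    (hact : ∀ (g : G) (u v : V), T.Adj u v → T.Adj (g • u) (g • v))
    (R : Subgroup G) [R.Normal] (hQ : C (G ⧸ R))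
    (hfree : ∀ r ∈ R, ∀ v : V, r • v = v → r = 1)
    (hinv : ∀ r ∈ R, ∀ u v : V, T.Adj u v → r • u = v → r • v ≠ u)
    (hW : ∀ n : ℕ, C (RF W (Fin n))) : C (G ⧸ (verbal W R).map R.subtype) := by
  obtain ⟨o⟩ := hT.connected.nonempty
  have hS := perm_mem W hC hW (XX R V) (G ⧸ R) (qhom R V) hQ
  obtain ⟨e, he⟩ : ∃ e : V → V → RF W (XX R V), e = fun u v => QuotientGroup.mk' _ (sy (kk R) u v) :=
    ⟨_, rfl⟩
  have he1 : ∀ u v, T.Adj u v → e u v * e v u = 1 := by
    intro u v _
    rw [he]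
    show QuotientGroup.mk' _ _ * QuotientGroup.mk' _ _ = 1
    rw [← map_mul, sy_mul, map_one]
  have he2 : ∀ (g : G) (u v : V), ((rfPerm W (XX R V)).comp (qhom R V)) (QuotientGroup.mk' R g)
      (e u v) = e (g • u) (g • v) := by
    intro g u v
    rw [he]
    show QuotientGroup.mk' _ (FreeGroup.map _ (sy (kk R) u v)) = QuotientGroup.mk' _ _
    unfold sy
    rw [map_mul, map_inv, FreeGroup.map.of, FreeGroup.map.of]
    rfl
  obtain ⟨Θ, hΘ⟩ : ∃ Θ : G →* RF W (XX R V) ⋊[(rfPerm W (XX R V)).comp (qhom R V)] (G ⧸ R),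
      Θ = theta hT hact e he1 o (QuotientGroup.mk' R) _ he2 := ⟨_, rfl⟩
  have hΘr : ∀ g, (Θ g).right = QuotientGroup.mk' R g := fun g => by rw [hΘ]; rfl
  have hΘl : ∀ g, (Θ g).left = gam hT e o (g • o) := fun g => by rw [hΘ]; rfl
  -- the kernel contains the verbal subgroup
  have h1 : ∀ g ∈ (verbal W R).map R.subtype, Θ g = 1 := by
    rintro _ ⟨r, hr, rfl⟩
    have hr1 : ∀ r : R, (Θ r).right = 1 := fun r => by
      rw [hΘr]
      exact (QuotientGroup.eq_one_iff _).2 r.2
    obtain ⟨β, hβ⟩ : ∃ β : R →* RF W (XX R V), ∀ r, β r = (Θ r).left := by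
      refine ⟨MonoidHom.mk' (fun r => (Θ r).left) fun a b => ?_, fun _ => rfl⟩
      show (Θ ((a : G) * b)).left = _
      rw [map_mul, SemidirectProduct.mul_left, hr1, map_one]
      rfl
    have h2 := verbal_map W β hr
    rw [verbal_rf, Subgroup.mem_bot, hβ] at h2
    exact SemidirectProduct.ext h2 (hr1 r)
  refine hC.base.of_injective _ _ (QuotientGroup.lift _ Θ h1) ?_ hS
  rw [injective_iff_map_eq_one]
  intro g hg
  obtain ⟨g, rfl⟩ := QuotientGroup.mk'_surjective _ g
  have h2 : Θ g = 1 := hg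
  rw [QuotientGroup.mk'_apply, QuotientGroup.eq_one_iff]
  have hgR : g ∈ R := by
    have h3 := hΘr g
    rw [h2] at h3
    exact (QuotientGroup.eq_one_iff g).1 h3.symm
  obtain ⟨s, ρ, hs, hρ⟩ := exists_ret (T := T) R hfree hinv
  obtain ⟨p⟩ := hT.connected.preconnected o (g • o)
  have h4 : wp (sy (kk R)) p ∈ verbal W (FreeGroup (XX R V)) := by
    have h5 := hΘl g
    rw [h2, gam_eq hT e he1 p] at h5
    have h6 := wp_hom (T := T) (QuotientGroup.mk' (verbal W (FreeGroup (XX R V)))) (sy (kk R)) e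
      (fun u v _ => by rw [he]) p
    rw [← h5] at h6
    exact (QuotientGroup.eq_one_iff _).1 h6
  have h7 := verbal_map W ρ h4
  rw [wp_hom (T := T) ρ (sy (kk R)) (fun u v => (s u)⁻¹ * s v) hρ p, wp_cob,
    hs ⟨g, hgR⟩ o] at h7
  refine ⟨⟨g, hgR⟩, ?_, rfl⟩
  have h8 := (verbal_normal W R).conj_mem _ h7 (s o)
  have h9 : s o * ((s o)⁻¹ * (⟨g, hgR⟩ * s o)) * (s o)⁻¹ = (⟨g, hgR⟩ : R) := by group
  rw [h9] at h8
  exact h8

end tree

end Pool.Agent.Run7.h78.VB
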